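import Mathlib
import Pool.Agent.H31.Spread

set_option autoImplicit false
open Pool.Agent.H31.Spread

namespace Pool.Agent.Results.MP_6838a0_co.Gap

theorem result (n : ℕ) (A : Fin n → Fin n → Prop) [DecidableRel A] (hn : 2 ≤ n)
    (h0 : ∀ i, ¬ A i i) (hb : ∀ i, indeg A i = outdeg A i) : ¬ (0 < spread A ∧ spread A < 1) := by
  rintro ⟨a, b⟩
  obtain h | ⟨h, -⟩ := main A hn h0 hb b.le <;> linarith

end Pool.Agent.Results.MP_6838a0_co.Gap
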